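import Mathlib
import Pool.Agent.Lib.MP_042ec1_co.Defs
import Pool.Agent.Lib.MP_042ec1_co.Defs2
import Pool.Agent.Lib.MP_042ec1_co.Convert
import Pool.Agent.Lib.MP_042ec1_co.Main2

/-!
Triangle-free graphs with no induced `S₁,₂,₃` have bounded clique-width.
-/

namespace Pool.Agent.Results.MP_042ec1_co.Q2

open Pool.Agent.Lib.MP_042ec1_co

/-- The class of `(K₃, S₁,₂,₃)`-free graphs has bounded clique-width. -/
theorem result : ∃ c : ℕ, ∀ (V : Type) [Fintype V] [Nonempty V] (G : SimpleGraph V),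
    IsEmpty ((⊤ : SimpleGraph (Fin 3)) ↪g G) → IsEmpty (S123 ↪g G) → CliqueWidthLE G c := by
  classical
  obtain ⟨k, hk⟩ := thmMain2
  refine ⟨3 * (k + 1), fun V _ _ G h3 hT => cliqueWidthLE_of_wd (by omega)
    ((hk V G Finset.univ fun T hT' f hf => ?_).mono (by omega))⟩
  have key : ∀ (T : SG) (H : SimpleGraph (Fin T.n)), Real G Finset.univ T f →
      (∀ i j : Fin T.n, i ≠ j → (H.Adj i j ↔ T.sym i j = true)) → Nonempty (H ↪g G) := by
    intro T H hf hH
    refine ⟨⟨⟨fun i => f i, fun i j e => ?_⟩, fun {i j} => ?_⟩⟩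
    · by_contra hne
      exact (hf.sym i.2 j.2 (Fin.val_ne_of_ne hne)).1 e
    · by_cases hij : i = j
      · subst hij
        exact iff_of_false G.irrefl H.irrefl
      · rw [hH i j hij]
        exact (hf.sym i.2 j.2 (Fin.val_ne_of_ne hij)).2
  simp only [fHb, List.mem_cons, List.not_mem_nil, or_false] at hT'
  rcases hT' with rfl | rfl
  · refine (key gK3 (⊤ : SimpleGraph (Fin 3)) hf ?_).elim h3.false
    change ∀ i j : Fin 3, i ≠ j → ((⊤ : SimpleGraph (Fin 3)).Adj i j ↔ gK3.sym i j = true)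
    simp only [SimpleGraph.top_adj]
    decide
  · refine (key gS123 S123 hf ?_).elim hT.false
    change ∀ i j : Fin 7, i ≠ j → (S123.Adj i j ↔ gS123.sym i j = true)
    simp only [S123, SimpleGraph.fromEdgeSet_adj, Set.mem_insert_iff, Set.mem_singleton_iff]
    decide

end Pool.Agent.Results.MP_042ec1_co.Q2
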